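import Pool.Agent.H8.BV.Targets

/-!
# PEN: the general member of a pencil is squarefree
-/

set_option autoImplicit false

open MvPolynomial
open Pool.Agent.H12.ZD (pmap)
open Pool.Agent.H18.HIT Pool.Agent.H18.HX Pool.Agent.H18.VZ
open Pool.Agent.H8.BIG (KF line)
open Pool.Agent.H8.BV

namespace Pool.Agent.H26.BV

section

variable {N : ℕ} {k : Type} [Field k]

theorem one_value (S L : Po N k) (hpr : ∀ q, Irreducible q → q ∣ S → ¬ q ∣ L) (q : Po N k)
    (hq : Irreducible q) : {ε : k | q ∣ S + C ε * L}.Subsingleton := by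
  intro a ha b hb
  by_contra hne
  have ha' : q ∣ S + C a * L := ha
  have hb' : q ∣ S + C b * L := hb
  have h1 : q ∣ C (a - b) * L := by
    have := dvd_sub ha' hb'
    have e : S + C a * L - (S + C b * L) = C (a - b) * L := by
      rw [C_sub]
      ring
    rwa [e] at this
  have h2 : q ∣ L := by
    have h3 : L = C (a - b)⁻¹ * (C (a - b) * L) := by
      rw [← mul_assoc, ← C_mul, inv_mul_cancel₀ (sub_ne_zero.2 hne), C_1, one_mul]
    rw [h3]
    exact h1.mul_left _
  have h4 : q ∣ S := (dvd_add_left (h2.mul_left _)).1 ha'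
  exact hpr q hq h4 h2

theorem fin_common (S L : Po N k) (hpr : ∀ q, Irreducible q → q ∣ S → ¬ q ∣ L) (f : Po N k)
    (hf : f ≠ 0) : {ε : k | ∃ q, Irreducible q ∧ q ∣ f ∧ q ∣ S + C ε * L}.Finite := by
  classical
  have h1 : {ε : k | ∃ q, Irreducible q ∧ q ∣ f ∧ q ∣ S + C ε * L} ⊆
      ⋃ q ∈ (UniqueFactorizationMonoid.factors f).toFinset, {ε : k | q ∣ S + C ε * L} := by
    rintro ε ⟨q, hq, hqf, hqS⟩
    obtain ⟨q', hq', hass⟩ := UniqueFactorizationMonoid.exists_mem_factors_of_dvd hf hq hqf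
    simp only [Set.mem_iUnion]
    exact ⟨q', Multiset.mem_toFinset.2 hq', hass.symm.dvd.trans hqS⟩
  refine Set.Finite.subset ?_ h1
  refine Set.Finite.biUnion (Finset.finite_toSet _) fun q hq => ?_
  exact (one_value S L hpr q (UniqueFactorizationMonoid.irreducible_of_factor q
    (Multiset.mem_toFinset.1 hq))).finite

theorem fin_zero (S L : Po N k) (hL : L ≠ 0) : {ε : k | S + C ε * L = 0}.Finite := by
  refine Set.Subsingleton.finite fun a ha b hb => ?_
  by_contra hne
  have ha' : S + C a * L = 0 := ha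
  have hb' : S + C b * L = 0 := hb
  have e : C (a - b) * L = 0 := by
    have : S + C a * L - (S + C b * L) = C (a - b) * L := by
      rw [C_sub]
      ring
    rw [← this, ha', hb', sub_zero]
  rcases mul_eq_zero.1 e with h | h
  · exact hne (sub_eq_zero.1 (C_eq_zero.1 h))
  · exact hL h

theorem exists_W [CharZero k] (s : ℕ) (S L : Po N k) (hs : 1 ≤ s) (hLh : L.IsHomogeneous s)
    (hL : L ≠ 0) (hpr : ∀ q, Irreducible q → q ∣ S → ¬ q ∣ L) :
    ∃ i, L * pderiv i S - S * pderiv i L ≠ 0 := by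
  by_contra hcon
  push Not at hcon
  have h1 : ∀ i, pderiv i L = 0 := by
    intro i
    by_contra hne
    have h2 : L ∣ S * pderiv i L := ⟨pderiv i S, by rw [sub_eq_zero.1 (hcon i)]⟩
    have h3 : L ∣ pderiv i L := UniqueFactorizationMonoid.dvd_of_dvd_mul_right_of_no_prime_factors
      hL (fun {d} hdL hdS hd => hpr d hd.irreducible hdS hdL) h2
    obtain ⟨g, hg⟩ := h3
    have hg0 : g ≠ 0 := by
      rintro rfl
      exact hne (by rw [hg, mul_zero])
    have h4 : (pderiv i L).totalDegree = L.totalDegree + g.totalDegree := by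
      conv_lhs => rw [hg]
      exact totalDegree_mul_of_isDomain hL hg0
    have h5 : L.totalDegree = s := hLh.totalDegree hL
    have h6 : (pderiv i L).totalDegree = s - 1 := (hLh.pderiv).totalDegree hne
    omega
  have h2 := hLh.sum_X_mul_pderiv
  simp only [h1, mul_zero, Finset.sum_const_zero] at h2
  have h3 : s • L ≠ 0 := by
    rw [nsmul_eq_mul]
    refine mul_ne_zero ?_ hL
    have : ((s : ℕ) : Po N k) = C (s : k) := by simp
    rw [this]
    intro h
    have h4 : (s : k) = 0 := C_eq_zero.1 h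
    have : s = 0 := by exact_mod_cast h4
    omega
  exact h3 h2.symm

end

theorem pf_PEN : T_PEN := by
  classical
  intro N s k _ _ S L ρ hs hSh hLh hS hL hpr hρ
  obtain ⟨i, hi⟩ := exists_W s S L hs hLh hL hpr
  have hfin := ((fin_zero S L hL).union (fin_common S L hpr ρ hρ)).union
    (fin_common S L hpr _ hi)
  refine ⟨hfin.toFinset, fun ε hε => ?_⟩
  rw [Set.Finite.mem_toFinset] at hε
  have h0 : S + C ε * L ≠ 0 := fun h => hε (Or.inl (Or.inl h))
  refine ⟨h0, ?_, fun q hq hqf hqρ => hε (Or.inl (Or.inr ⟨q, hq, hqρ, hqf⟩))⟩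
  rw [squarefree_iff_irreducible_sq_not_dvd_of_ne_zero h0]
  intro q hq hqq
  refine hε (Or.inr ⟨q, hq, ?_, (dvd_mul_right q q).trans hqq⟩)
  obtain ⟨g, hg⟩ := hqq
  have h1 : q ∣ pderiv i (S + C ε * L) := by
    rw [hg]
    simp only [Derivation.leibniz, smul_eq_mul]
    exact ⟨q * pderiv i g + g * (pderiv i q + pderiv i q), by ring⟩
  have h2 : L * pderiv i S - S * pderiv i L =
      L * pderiv i (S + C ε * L) - (S + C ε * L) * pderiv i L := by
    simp only [map_add, Derivation.leibniz, smul_eq_mul, pderiv_C]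
    ring
  rw [h2]
  refine dvd_sub (h1.mul_left _) (Dvd.dvd.mul_right ?_ _)
  rw [hg]
  exact ⟨q * g, by ring⟩

end Pool.Agent.H26.BV
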